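import Pool.Agent.W201.NT.StmT

/-!
Project NT, task CT: contractible spaces.
-/

set_option autoImplicit false

namespace Pool.Agent.W308.NT

open Pool.Agent.Helper381 Pool.Agent.W201.NT CategoryTheory

theorem van_of_subsingleton {X : Type} [TopologicalSpace X] {n : ℕ}
    (h : Subsingleton (HX ℤ X n)) : Van X n := by
  have h1 := Submodule.Quotient.subsingleton_iff.1 h
  intro z hz
  have h2 : (⟨z, hz⟩ : ↥(gcyc ℤ (fun n => Sing X n →₀ ℤ) (bdR ℤ X) n)) ∈
      (LinearMap.range (bdR ℤ X n)).comap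
        (gcyc ℤ (fun n => Sing X n →₀ ℤ) (bdR ℤ X) n).subtype := by
    rw [h1]
    exact Submodule.mem_top
  exact h2

theorem main : S_BR → S_HI → S_CT := by
  intro hBR hHI X _ hX n hn
  obtain ⟨e⟩ := hX.hequiv_unit
  refine hHI Unit X e.symm.toFun e.toFun e.left_inv n ?_
  apply van_of_subsingleton
  obtain ⟨E⟩ := hBR ℤ Unit n
  have h1 : Limits.IsZero (((AlgebraicTopology.singularHomologyFunctor (ModuleCat.{0} ℤ) n).obj
      (ModuleCat.of ℤ ℤ)).obj (TopCat.of Unit)) :=
    AlgebraicTopology.isZero_singularHomologyFunctor_of_totallyDisconnectedSpace _ n _ _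
      (by omega)
  have h2 : Subsingleton (MH ℤ Unit n) := ModuleCat.subsingleton_of_isZero h1
  exact E.toEquiv.subsingleton

end Pool.Agent.W308.NT
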